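import Pool.Agent.H586.AF.D

/-!
# Task AG-P23 (helper987, for the project AG of helper586)

One plaquette of the plane 23, for every closed subgroup of `U(N)`.
-/

set_option autoImplicit false

open MeasureTheory Matrix Finset Filter Topology
open scoped Matrix.Norms.Frobenius

namespace Pool.Agent.H987.AG

open Pool.Agent.H586.AF.GG

noncomputable section

variable {N : ℕ}

/-- real part of the trace -/
def ta : Mt N →ₗ[ℝ] ℝ := Complex.reLm.comp (Matrix.traceLinearMap (Fin N) ℝ ℂ)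

theorem ta_apply (A : Mt N) : ta A = (trace A).re := rfl

theorem ta_comm (A B : Mt N) : ta (A * B) = ta (B * A) := by
  rw [ta_apply, ta_apply, trace_mul_comm]

theorem ta_star (A : Mt N) : ta Aᴴ = ta A := by
  rw [ta_apply, ta_apply, trace_conjTranspose]
  simp

theorem entry_le (A : Mt N) (i j : Fin N) : ‖A i j‖ ≤ ‖A‖ := by
  rw [frobenius_norm_def]
  have h1 : ‖A i j‖ = (‖A i j‖ ^ (2 : ℝ)) ^ (1 / 2 : ℝ) := by
    rw [← Real.rpow_mul (norm_nonneg _)]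
    norm_num
  rw [h1]
  refine Real.rpow_le_rpow (by positivity) ?_ (by norm_num)
  have h2 : ‖A i j‖ ^ (2 : ℝ) ≤ ∑ j, ‖A i j‖ ^ (2 : ℝ) :=
    single_le_sum (f := fun j => ‖A i j‖ ^ (2 : ℝ)) (fun _ _ => by positivity) (mem_univ j)
  exact h2.trans (single_le_sum (f := fun i => ∑ j, ‖A i j‖ ^ (2 : ℝ))
    (fun _ _ => by positivity) (mem_univ i))

theorem ta_le (A : Mt N) : |ta A| ≤ N * ‖A‖ := by
  rw [ta_apply]
  refine (Complex.abs_re_le_norm _).trans ?_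
  unfold trace
  refine (norm_sum_le _ _).trans ?_
  refine (sum_le_sum fun i _ => entry_le A i i).trans ?_
  simp

theorem ta_deriv {F : ℝ → Mt N} {F' : Mt N} {t : ℝ} (h : HasDerivAt F F' t) :
    HasDerivAt (fun t => ta (F t)) (ta F') t :=
  (ta.mkContinuous N ta_le).hasFDerivAt.comp_hasDerivAt t h

/-- commutator -/
def cm (X A : Mt N) : Mt N := X * A - A * X

theorem cm_one_add (X A : Mt N) : cm X (1 + A) = cm X A := by
  unfold cm
  noncomm_ring

theorem cm_add (X A B : Mt N) : cm X (A + B) = cm X A + cm X B := by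
  unfold cm
  noncomm_ring

theorem cm_sub (X A B : Mt N) : cm X (A - B) = cm X A - cm X B := by
  unfold cm
  noncomm_ring

theorem cm_neg_left (X A : Mt N) : cm (-X) A = -cm X A := by
  unfold cm
  noncomm_ring

theorem cm_neg (X A : Mt N) : cm X (-A) = -cm X A := by
  unfold cm
  noncomm_ring

theorem ta_cm (X A : Mt N) : ta (cm X A) = 0 := by
  unfold cm
  rw [map_sub, ta_comm, sub_self]

theorem ta_cm_mul (X A B : Mt N) : ta (cm X A * B) = kp X A B - kp X B A := by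
  have h1 : kp X A B = ta (X * A * B) := rfl
  have h2 : kp X B A = ta (X * B * A) := rfl
  have h3 : ta (X * B * A) = ta (A * (X * B)) := ta_comm _ _
  unfold cm
  rw [sub_mul, map_sub, h1, h2, h3, ← mul_assoc]

theorem ta_mul_cm (X A B : Mt N) : ta (B * cm X A) = kp X A B - kp X B A := by
  rw [ta_comm, ta_cm_mul]

theorem kp_eq (X A B : Mt N) : kp X A B = ta (X * A * B) := rfl

theorem kp_star_right (X A B : Mt N) : kp X A Bᴴ = kp X A (B + Bᴴ) - kp X A B := by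
  rw [kp_eq, kp_eq, kp_eq, mul_add, map_add]
  ring

theorem kp_star_left (X A B : Mt N) : kp X Bᴴ A = kp X (B + Bᴴ) A - kp X B A := by
  rw [kp_eq, kp_eq, kp_eq, mul_add, add_mul, map_add]
  ring

theorem kp_anti (X A B : Mt N) (hX : Xᴴ = -X) :
    kp X A B + kp X B A = kp X B (A + Aᴴ) - kp X (B + Bᴴ) Aᴴ := by
  have h1 : ta (X * A * B) = -ta (X * Bᴴ * Aᴴ) := by
    rw [← ta_star, conjTranspose_mul, conjTranspose_mul, hX, mul_neg, mul_neg, map_neg,
      ← mul_assoc, ta_comm, ← mul_assoc]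
  rw [kp_eq, kp_eq, kp_eq, kp_eq, mul_add (X * B), map_add, mul_add X, add_mul, map_add, h1]
  ring

/-- `Re tr ([X, A] [X, B])` -/
def gm (X A B : Mt N) : ℝ := ta (cm X A * cm X B)

theorem ta_gm (X A B : Mt N) : ta (cm X A * cm X B) = gm X A B := rfl

theorem gm_comm (X A B : Mt N) : gm X A B = gm X B A := ta_comm _ _

theorem ta_cm_cm_mul (X A B : Mt N) : ta (cm X (cm X A) * B) = -gm X A B := by
  have h1 : cm X (cm X A) * B = X * (cm X A * B) - cm X A * (X * B) := by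
    rw [cm]
    noncomm_ring
  have h2 : cm X A * cm X B = cm X A * (X * B) - cm X A * B * X := by
    have hB : cm X B = X * B - B * X := rfl
    rw [hB]
    noncomm_ring
  have h3 : ta (X * (cm X A * B)) = ta (cm X A * B * X) := ta_comm _ _
  rw [gm, h1, h2, map_sub, map_sub, h3]
  ring

theorem ta_mul_cm_cm (X A B : Mt N) : ta (B * cm X (cm X A)) = -gm X A B := by
  rw [ta_comm, ta_cm_cm_mul]

theorem gm_star_right (X A B : Mt N) : gm X A Bᴴ = gm X A (B + Bᴴ) - gm X A B := by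
  unfold gm
  rw [cm_add X B, mul_add, map_add]
  ring

theorem gm_star_left (X A B : Mt N) : gm X Bᴴ A = gm X (B + Bᴴ) A - gm X B A := by
  unfold gm
  rw [cm_add X B, add_mul, map_add]
  ring

theorem gp_eq (X A B : Mt N) (hX : Xᴴ = -X) : gp X A B = gm X (A + Aᴴ) B - gm X A B := by
  have h1 : (X * A - A * X)ᴴ = cm X (A + Aᴴ) - cm X A := by
    rw [conjTranspose_sub, conjTranspose_mul, conjTranspose_mul, hX, cm_add]
    unfold cm
    noncomm_ring
  have h2 : gp X A B = ta ((X * A - A * X)ᴴ * cm X B) := rfl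
  rw [h2, h1, sub_mul, map_sub]
  rfl

theorem gp_def' (X A B : Mt N) : gp X A B = ta ((cm X A)ᴴ * cm X B) := rfl

theorem gp_add_left (X A B C : Mt N) : gp X (A + B) C = gp X A C + gp X B C := by
  simp only [gp_def', cm_add, conjTranspose_add, add_mul, map_add]

theorem gp_sub_left (X A B C : Mt N) : gp X (A - B) C = gp X A C - gp X B C := by
  simp only [gp_def', cm_sub, conjTranspose_sub, sub_mul, map_sub]

theorem gp_add_right (X A B C : Mt N) : gp X C (A + B) = gp X C A + gp X C B := by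
  simp only [gp_def', cm_add, mul_add, map_add]

theorem gp_sub_right (X A B C : Mt N) : gp X C (A - B) = gp X C A - gp X C B := by
  simp only [gp_def', cm_sub, mul_sub, map_sub]

theorem norm_uni_le (U : Mt N) (hU : U ∈ unitaryGroup (Fin N) ℂ) :
    ‖U‖ ≤ ((N : ℝ) * N) ^ (1 / 2 : ℝ) := by
  rw [frobenius_norm_def]
  refine Real.rpow_le_rpow (by positivity) ?_ (by norm_num)
  calc ∑ i, ∑ j, ‖U i j‖ ^ (2 : ℝ) ≤ ∑ i : Fin N, ∑ j : Fin N, (1 : ℝ) := by
        refine sum_le_sum fun i _ => sum_le_sum fun j _ => ?_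
        exact Real.rpow_le_one (norm_nonneg _) (entry_norm_bound_of_unitary hU i j) (by norm_num)
    _ = N * N := by simp

/-! ### Orders of magnitude -/

section orders

variable {α : Type} {f : α → ℝ} {k l : ℕ} {A B : α → Mt N} {g h : α → ℝ}

/-- `A = O(f ^ k)` -/
def Bd (f : α → ℝ) (k : ℕ) (A : α → Mt N) : Prop := ∃ C, 0 ≤ C ∧ ∀ z, ‖A z‖ ≤ C * |f z| ^ k

/-- `g = O(f ^ k)` -/
def Rd (f : α → ℝ) (k : ℕ) (g : α → ℝ) : Prop := ∃ C, 0 ≤ C ∧ ∀ z, |g z| ≤ C * |f z| ^ k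

theorem Bd.add (hA : Bd f k A) (hB : Bd f k B) : Bd f k (fun z => A z + B z) := by
  obtain ⟨C, hC, h1⟩ := hA
  obtain ⟨D, hD, h2⟩ := hB
  refine ⟨C + D, by positivity, fun z => ?_⟩
  calc _ ≤ ‖A z‖ + ‖B z‖ := norm_add_le _ _
    _ ≤ C * |f z| ^ k + D * |f z| ^ k := add_le_add (h1 z) (h2 z)
    _ = _ := by ring

theorem Bd.sub (hA : Bd f k A) (hB : Bd f k B) : Bd f k (fun z => A z - B z) := by
  obtain ⟨C, hC, h1⟩ := hA
  obtain ⟨D, hD, h2⟩ := hB
  refine ⟨C + D, by positivity, fun z => ?_⟩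
  calc _ ≤ ‖A z‖ + ‖B z‖ := norm_sub_le _ _
    _ ≤ C * |f z| ^ k + D * |f z| ^ k := add_le_add (h1 z) (h2 z)
    _ = _ := by ring

theorem Bd.neg (hA : Bd f k A) : Bd f k (fun z => -A z) := by
  obtain ⟨C, hC, h1⟩ := hA
  exact ⟨C, hC, fun z => by rw [norm_neg]; exact h1 z⟩

theorem Bd.star (hA : Bd f k A) : Bd f k (fun z => (A z)ᴴ) := by
  obtain ⟨C, hC, h1⟩ := hA
  exact ⟨C, hC, fun z => by rw [frobenius_norm_conjTranspose]; exact h1 z⟩

theorem Bd.mul (hA : Bd f k A) (hB : Bd f l B) : Bd f (k + l) (fun z => A z * B z) := by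
  obtain ⟨C, hC, h1⟩ := hA
  obtain ⟨D, hD, h2⟩ := hB
  refine ⟨C * D, by positivity, fun z => ?_⟩
  calc _ ≤ ‖A z‖ * ‖B z‖ := norm_mul_le _ _
    _ ≤ (C * |f z| ^ k) * (D * |f z| ^ l) :=
        mul_le_mul (h1 z) (h2 z) (norm_nonneg _) (by positivity)
    _ = _ := by ring

theorem Bd.const (M : Mt N) : Bd f 0 (fun _ => M) := ⟨‖M‖, norm_nonneg _, fun _ => by simp⟩

theorem Bd.cm (X : Mt N) (hA : Bd f k A) : Bd f k (fun z => cm X (A z)) := by
  have h1 := ((Bd.const (f := f) X).mul hA).sub (by simpa using hA.mul (Bd.const (f := f) X))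
  change Bd f k (fun z => X * A z - A z * X)
  simpa using h1

theorem Rd.add (hg : Rd f k g) (hh : Rd f k h) : Rd f k (fun z => g z + h z) := by
  obtain ⟨C, hC, h1⟩ := hg
  obtain ⟨D, hD, h2⟩ := hh
  refine ⟨C + D, by positivity, fun z => ?_⟩
  calc _ ≤ |g z| + |h z| := abs_add_le _ _
    _ ≤ C * |f z| ^ k + D * |f z| ^ k := add_le_add (h1 z) (h2 z)
    _ = _ := by ring

theorem Rd.neg (hg : Rd f k g) : Rd f k (fun z => -g z) := by
  obtain ⟨C, hC, h1⟩ := hg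
  exact ⟨C, hC, fun z => by rw [abs_neg]; exact h1 z⟩

theorem Rd.sub (hg : Rd f k g) (hh : Rd f k h) : Rd f k (fun z => g z - h z) := by
  have := hg.add hh.neg
  simpa only [sub_eq_add_neg] using this

theorem Bd.ta (hA : Bd f k A) : Rd f k (fun z => ta (A z)) := by
  obtain ⟨C, hC, h1⟩ := hA
  refine ⟨N * C, by positivity, fun z => (ta_le _).trans ?_⟩
  rw [mul_assoc]
  exact mul_le_mul_of_nonneg_left (h1 z) (Nat.cast_nonneg _)

theorem Bd.kp (X : Mt N) (hA : Bd f k A) (hB : Bd f l B) :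
    Rd f (k + l) (fun z => kp X (A z) (B z)) := by
  have h1 := (((Bd.const (f := f) X).mul hA).mul hB).ta
  simpa [kp_eq] using h1

theorem Bd.gm (X : Mt N) (hA : Bd f k A) (hB : Bd f l B) :
    Rd f (k + l) (fun z => gm X (A z) (B z)) :=
  ((hA.cm X).mul (hB.cm X)).ta

theorem Rd.congr (hg : Rd f k g) (e : ∀ z, h z = g z) : Rd f k h := by
  obtain ⟨C, hC, h1⟩ := hg
  exact ⟨C, hC, fun z => by rw [e z]; exact h1 z⟩

end orders

/-! ### The expansions at `θ = 0` -/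

theorem alg1 {A : Type} [Ring A] (p q R S y Z : A) :
    (1 + p) * y * (1 + R) * (1 + S) - (1 + p) * (1 + q) * (1 + R) * Z =
      y - Z + (p * y + y * R + y * S) - (p * Z + q * Z + R * Z) +
      (p * y * R * (1 + S) + p * y * S + y * R * S -
        (p * q * (1 + R) + p * R + q * R) * Z) := by
  noncomm_ring

theorem alg2 {A : Type} [Ring A] (p q R S y Y Z W : A) :
    (1 + p) * Y * (1 + R) * (1 + S) - ((1 + p) * y * (1 + R) * Z + (1 + p) * y * (1 + R) * Z) +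
      (1 + p) * (1 + q) * (1 + R) * W =
      Y + W + (p * Y + Y * R + Y * S) - (y * Z + y * Z) + (p * W + q * W + R * W) +
      (p * Y * R * (1 + S) + p * Y * S + Y * R * S -
        ((p * y * (1 + R) * Z + y * R * Z) + (p * y * (1 + R) * Z + y * R * Z)) +
        (p * q * (1 + R) + p * R + q * R) * W) := by
  noncomm_ring

/-- quadruples -/
abbrev Q4 (N : ℕ) := UU N × UU N × UU N × UU N

/-- `a - 1` -/
def zp (z : Q4 N) : Mt N := (z.1 : Mt N) - 1
/-- `b - 1` -/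
def zq (z : Q4 N) : Mt N := (z.2.1 : Mt N) - 1
/-- `c - 1` -/
def zr (z : Q4 N) : Mt N := (z.2.2.1 : Mt N) - 1
/-- `d - 1` -/
def zs (z : Q4 N) : Mt N := (z.2.2.2 : Mt N) - 1

/-- the size -/
def ff (z : Q4 N) : ℝ := ‖zp z‖ + ‖zq z‖ + ‖zr z‖ + ‖zs z‖

theorem ff_nonneg (z : Q4 N) : 0 ≤ ff z := by unfold ff; positivity

theorem bp : Bd (ff (N := N)) 1 zp := ⟨1, zero_le_one, fun z => by
  rw [abs_of_nonneg (ff_nonneg z), ff]
  have h1 := norm_nonneg (zq z); have h2 := norm_nonneg (zr z); have h3 := norm_nonneg (zs z)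
  linarith⟩
theorem bq : Bd (ff (N := N)) 1 zq := ⟨1, zero_le_one, fun z => by
  rw [abs_of_nonneg (ff_nonneg z), ff]
  have h1 := norm_nonneg (zp z); have h2 := norm_nonneg (zr z); have h3 := norm_nonneg (zs z)
  linarith⟩
theorem br : Bd (ff (N := N)) 1 zr := ⟨1, zero_le_one, fun z => by
  rw [abs_of_nonneg (ff_nonneg z), ff]
  have h1 := norm_nonneg (zp z); have h2 := norm_nonneg (zq z); have h3 := norm_nonneg (zs z)
  linarith⟩
theorem bs : Bd (ff (N := N)) 1 zs := ⟨1, zero_le_one, fun z => by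
  rw [abs_of_nonneg (ff_nonneg z), ff]
  have h1 := norm_nonneg (zp z); have h2 := norm_nonneg (zq z); have h3 := norm_nonneg (zr z)
  linarith⟩

theorem uni_sum (a : UU N) : ((a : Mt N) - 1) + ((a : Mt N) - 1)ᴴ =
    -(((a : Mt N) - 1) * ((a : Mt N) - 1)ᴴ) := by
  have h1 : (a : Mt N) * (a : Mt N)ᴴ = 1 := mem_unitaryGroup_iff.1 a.2
  rw [conjTranspose_sub, conjTranspose_one, sub_mul, mul_sub, mul_sub, h1]
  simp only [mul_one, one_mul]
  abel

theorem bpp : Bd (ff (N := N)) 2 (fun z => zp z + (zp z)ᴴ) := by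
  have h1 := (bp (N := N).mul bp.star).neg
  have h2 : (fun z : Q4 N => zp z + (zp z)ᴴ) = fun z => -(zp z * (zp z)ᴴ) :=
    funext fun z => uni_sum z.1
  rw [h2]; exact h1
theorem bqq : Bd (ff (N := N)) 2 (fun z => zq z + (zq z)ᴴ) := by
  have h1 := (bq (N := N).mul bq.star).neg
  have h2 : (fun z : Q4 N => zq z + (zq z)ᴴ) = fun z => -(zq z * (zq z)ᴴ) :=
    funext fun z => uni_sum z.2.1
  rw [h2]; exact h1
theorem brr : Bd (ff (N := N)) 2 (fun z => zr z + (zr z)ᴴ) := by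
  have h1 := (br (N := N).mul br.star).neg
  have h2 : (fun z : Q4 N => zr z + (zr z)ᴴ) = fun z => -(zr z * (zr z)ᴴ) :=
    funext fun z => uni_sum z.2.2.1
  rw [h2]; exact h1
theorem bss : Bd (ff (N := N)) 2 (fun z => zs z + (zs z)ᴴ) := by
  have h1 := (bs (N := N).mul bs.star).neg
  have h2 : (fun z : Q4 N => zs z + (zs z)ᴴ) = fun z => -(zs z * (zs z)ᴴ) :=
    funext fun z => uni_sum z.2.2.2
  rw [h2]; exact h1

theorem uni_star_norm (a : UU N) : ‖(1 + ((a : Mt N) - 1)ᴴ : Mt N)‖ ≤ ((N : ℝ) * N) ^ (1 / 2 : ℝ) := by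
  have h1 : (1 + ((a : Mt N) - 1)ᴴ : Mt N) = (a : Mt N)ᴴ := by
    rw [conjTranspose_sub, conjTranspose_one]; abel
  rw [h1, frobenius_norm_conjTranspose]
  exact norm_uni_le _ a.2

theorem bc' : Bd (ff (N := N)) 0 (fun z => 1 + (zr z)ᴴ) :=
  ⟨((N : ℝ) * N) ^ (1 / 2 : ℝ), by positivity, fun z => by
    rw [pow_zero, mul_one]; exact uni_star_norm z.2.2.1⟩
theorem bd' : Bd (ff (N := N)) 0 (fun z => 1 + (zs z)ᴴ) :=
  ⟨((N : ℝ) * N) ^ (1 / 2 : ℝ), by positivity, fun z => by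
    rw [pow_zero, mul_one]; exact uni_star_norm z.2.2.2⟩

theorem r_anti (X : Mt N) (hX : Xᴴ = -X) {A B : Q4 N → Mt N} (hA : Bd ff 1 A) (hB : Bd ff 1 B)
    (hA' : Bd ff 2 (fun z => A z + (A z)ᴴ)) (hB' : Bd ff 2 (fun z => B z + (B z)ᴴ)) :
    Rd ff 3 (fun z => kp X (A z) (B z) + kp X (B z) (A z)) :=
  ((hB.kp X hA').sub (hB'.kp X hA.star)).congr fun _ => kp_anti X _ _ hX

/-- the error matrix of the first derivative -/
def E1 (X : Mt N) (z : Q4 N) : Mt N :=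
  zp z * cm X (zq z) * (zr z)ᴴ * (1 + (zs z)ᴴ) + zp z * cm X (zq z) * (zs z)ᴴ +
    cm X (zq z) * (zr z)ᴴ * (zs z)ᴴ -
    (zp z * zq z * (1 + (zr z)ᴴ) + zp z * (zr z)ᴴ + zq z * (zr z)ᴴ) * cm X (zs z)ᴴ

theorem bE1 (X : Mt N) : Bd ff 3 (E1 X) :=
  (((((bp.mul (bq.cm X)).mul br.star).mul bd').add ((bp.mul (bq.cm X)).mul bs.star)).add
    (((bq.cm X).mul br.star).mul bs.star)).sub
    (((((bp.mul bq).mul bc').add (bp.mul br.star)).add (bq.mul br.star)).mul (bs.star.cm X))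

/-- the error matrix of the second derivative -/
def E2 (X : Mt N) (z : Q4 N) : Mt N :=
  zp z * cm X (cm X (zq z)) * (zr z)ᴴ * (1 + (zs z)ᴴ) + zp z * cm X (cm X (zq z)) * (zs z)ᴴ +
    cm X (cm X (zq z)) * (zr z)ᴴ * (zs z)ᴴ -
    ((zp z * cm X (zq z) * (1 + (zr z)ᴴ) * cm X (zs z)ᴴ + cm X (zq z) * (zr z)ᴴ * cm X (zs z)ᴴ) +
      (zp z * cm X (zq z) * (1 + (zr z)ᴴ) * cm X (zs z)ᴴ +
        cm X (zq z) * (zr z)ᴴ * cm X (zs z)ᴴ)) +
    (zp z * zq z * (1 + (zr z)ᴴ) + zp z * (zr z)ᴴ + zq z * (zr z)ᴴ) * cm X (cm X (zs z)ᴴ)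

theorem bE2 (X : Mt N) : Bd ff 3 (E2 X) := by
  have h1 : Bd ff 3 (fun z : Q4 N => zp z * cm X (zq z) * (1 + (zr z)ᴴ) * cm X (zs z)ᴴ +
      cm X (zq z) * (zr z)ᴴ * cm X (zs z)ᴴ) :=
    (((bp.mul (bq.cm X)).mul bc').mul (bs.star.cm X)).add
      (((bq.cm X).mul br.star).mul (bs.star.cm X))
  exact ((((((bp.mul ((bq.cm X).cm X)).mul br.star).mul bd').add
    ((bp.mul ((bq.cm X).cm X)).mul bs.star)).add
    ((((bq.cm X).cm X).mul br.star).mul bs.star)).sub (h1.add h1)).add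
    (((((bp.mul bq).mul bc').add (bp.mul br.star)).add (bq.mul br.star)).mul
      ((bs.star.cm X).cm X))

theorem one_add_zp (z : Q4 N) : (z.1 : Mt N) = 1 + zp z := by unfold zp; abel
theorem one_add_zq (z : Q4 N) : (z.2.1 : Mt N) = 1 + zq z := by unfold zq; abel
theorem one_add_zr (z : Q4 N) : (z.2.2.1 : Mt N)ᴴ = 1 + (zr z)ᴴ := by
  unfold zr; rw [conjTranspose_sub, conjTranspose_one]; abel
theorem one_add_zs (z : Q4 N) : (z.2.2.2 : Mt N)ᴴ = 1 + (zs z)ᴴ := by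
  unfold zs; rw [conjTranspose_sub, conjTranspose_one]; abel

/-- the first derivative of the product -/
def G1 (X a b c' d' : Mt N) : Mt N := a * cm X b * c' * d' - a * b * c' * cm X d'

/-- the second derivative of the product -/
def G2 (X a b c' d' : Mt N) : Mt N :=
  a * cm X (cm X b) * c' * d' - (a * cm X b * c' * cm X d' + a * cm X b * c' * cm X d') +
    a * b * c' * cm X (cm X d')

theorem L1 (X : Mt N) (hX : Xᴴ = -X) : Rd ff 3 (fun z : Q4 N =>
    ta (G1 X z.1 z.2.1 (z.2.2.1 : Mt N)ᴴ (z.2.2.2 : Mt N)ᴴ) -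
      2 * (kp X (zq z) (zp z) - kp X (zq z) (zr z) - 2 * kp X (zq z) (zs z) +
        kp X (zs z) (zp z) - kp X (zs z) (zr z))) := by
  have a1 := r_anti X hX bq bp bqq bpp
  have a2 := r_anti X hX bq br bqq brr
  have a3 := r_anti X hX bq bs bqq bss
  have a4 := r_anti X hX bp bs bpp bss
  have a5 := r_anti X hX bs br bss brr
  have k1 : Rd ff 3 _ := bq.kp X brr
  have k2 : Rd ff 3 _ := brr.kp X bq
  have k3 : Rd ff 3 _ := bq.kp X bss
  have k4 : Rd ff 3 _ := bss.kp X bq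
  have k5 : Rd ff 3 _ := bss.kp X bp
  have k6 : Rd ff 3 _ := bp.kp X bss
  have k7 : Rd ff 3 _ := bs.star.kp X brr
  have k8 : Rd ff 3 _ := bss.kp X br
  have k9 : Rd ff 3 _ := br.star.kp X bss
  have k10 : Rd ff 3 _ := brr.kp X bs
  refine ((((((((((((((((bE1 X).ta.sub a1).add k1).sub k2).add a2).add (k3.sub k4)).add
    (k3.sub k4)).add (a3.add a3)).sub k5).add k6).sub a4).sub k7).add k8).add k9).sub k10).add
    a5).congr fun z => ?_
  rw [one_add_zp, one_add_zq, one_add_zr, one_add_zs, G1, cm_one_add, cm_one_add, alg1]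
  change ta (_ + E1 X z) - _ = _
  simp only [map_add, map_sub, ta_cm, ta_cm_mul, ta_mul_cm]
  rw [kp_star_right X (zq z) (zr z), kp_star_left X (zq z) (zr z),
    kp_star_right X (zq z) (zs z), kp_star_left X (zq z) (zs z),
    kp_star_right X (zp z) (zs z), kp_star_left X (zp z) (zs z),
    kp_star_right X (zs z)ᴴ (zr z), kp_star_left X (zr z) (zs z),
    kp_star_right X (zr z)ᴴ (zs z), kp_star_left X (zs z) (zr z)]
  ring

theorem L2 (X : Mt N) (hX : Xᴴ = -X) : Rd ff 3 (fun z : Q4 N =>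
    ta (G2 X z.1 z.2.1 (z.2.2.1 : Mt N)ᴴ (z.2.2.2 : Mt N)ᴴ) +
      (gp X (zq z + zs z) (zq z + zs z) -
        gp X (zq z - zs z) (zp z - zr z + (zq z - zs z)))) := by
  have m1 : Rd ff 3 _ := bq.gm X brr
  have m2 : Rd ff 3 _ := bq.gm X bss
  have m3 : Rd ff 3 _ := bs.star.gm X brr
  have m4 : Rd ff 3 _ := bqq.gm X bs
  have m5 : Rd ff 3 _ := bqq.gm X bp
  have m6 : Rd ff 3 _ := bqq.gm X br
  refine (((((((((bE2 X).ta.sub m1).sub m2).sub m2).sub m3).add m4).add m4).sub m5).add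
    m6).congr fun z => ?_
  rw [one_add_zp, one_add_zq, one_add_zr, one_add_zs, G2, cm_one_add, cm_one_add, alg2]
  change ta (_ + E2 X z) + _ = _
  simp only [map_add, map_sub, ta_cm, ta_cm_cm_mul, ta_mul_cm_cm, gp_add_left, gp_add_right,
    gp_sub_left, gp_sub_right, ta_gm]
  simp only [gp_eq X _ _ hX]
  rw [gm_star_right X (zq z) (zr z), gm_star_right X (zq z) (zs z),
    gm_star_left X (zp z) (zs z), gm_star_left X (zq z) (zs z),
    gm_star_right X (zs z)ᴴ (zr z), gm_star_left X (zr z) (zs z),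
    gm_comm X (zs z) (zq z), gm_comm X (zs z + (zs z)ᴴ) (zq z)]
  ring

/-! ### The derivatives -/

/-- `exp (t X) b exp (-t X)` -/
def bS (X b : Mt N) (t : ℝ) : Mt N := NormedSpace.exp (t • X) * b * NormedSpace.exp (t • (-X))

theorem bS_deriv (X b : Mt N) (t : ℝ) : HasDerivAt (bS X b) (cm X (bS X b t)) t := by
  have h1 := ((hasDerivAt_exp_smul_const' X t).mul_const b).mul (hasDerivAt_exp_smul_const (-X) t)
  refine h1.congr_deriv ?_
  unfold cm bS
  noncomm_ring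

theorem bS_zero (X b : Mt N) : bS X b 0 = b := by
  unfold bS
  simp

theorem cm_deriv (X : Mt N) {B : ℝ → Mt N} {B' : Mt N} {t : ℝ} (h : HasDerivAt B B' t) :
    HasDerivAt (fun t => cm X (B t)) (cm X B') t :=
  (h.const_mul X).sub (h.mul_const X)

theorem dS_deriv (X b : Mt N) (t : ℝ) :
    HasDerivAt (bS (-X) b) (-cm X (bS (-X) b t)) t := by
  have h1 := bS_deriv (-X) b t
  rwa [cm_neg_left] at h1

theorem G_deriv (X a b c' d' : Mt N) (t : ℝ) :
    HasDerivAt (fun t => a * bS X b t * c' * bS (-X) d' t)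
      (G1 X a (bS X b t) c' (bS (-X) d' t)) t := by
  have h1 := (((bS_deriv X b t).const_mul a).mul_const c').mul (dS_deriv X d' t)
  refine h1.congr_deriv ?_
  unfold G1
  rw [mul_neg, sub_eq_add_neg]

theorem G1_deriv (X a b c' d' : Mt N) (t : ℝ) :
    HasDerivAt (fun t => G1 X a (bS X b t) c' (bS (-X) d' t))
      (G2 X a (bS X b t) c' (bS (-X) d' t)) t := by
  have hB := bS_deriv X b t
  have hD := dS_deriv X d' t
  have h1 := ((((cm_deriv X hB).const_mul a).mul_const c').mul hD).sub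
    (((hB.const_mul a).mul_const c').mul (cm_deriv X hD))
  refine h1.congr_deriv ?_
  unfold G2
  rw [cm_neg, mul_neg, mul_neg]
  abel

theorem bS_cont (X b : Mt N) : Continuous (bS X b) :=
  continuous_iff_continuousAt.2 fun t => (bS_deriv X b t).continuousAt

theorem ta_cont : Continuous (fun A : Mt N => ta A) :=
  Complex.continuous_re.comp (continuous_id.matrix_trace)

theorem G2_cont (X a b c' d' : Mt N) :
    Continuous (fun t => ta (G2 X a (bS X b t) c' (bS (-X) d' t))) := by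
  have h1 := bS_cont X b
  have h2 := bS_cont (-X) d'
  refine ta_cont.comp ?_
  unfold G2 cm
  fun_prop

theorem exp_star (X : Mt N) (hX : Xᴴ = -X) (t : ℝ) :
    (NormedSpace.exp (t • X))ᴴ = NormedSpace.exp (t • (-X)) := by
  rw [← exp_conjTranspose, conjTranspose_smul, hX]
  simp

theorem uni_exp (X : Mt N) (hX : Xᴴ = -X) (t : ℝ) :
    NormedSpace.exp (t • X) ∈ unitaryGroup (Fin N) ℂ := by
  rw [mem_unitaryGroup_iff, star_eq_conjTranspose, exp_star X hX,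
    ← Matrix.exp_add_of_commute]
  · simp
  · rw [smul_neg]
    exact (Commute.refl _).neg_right

theorem cyc_aux (u v a b c' d' : Mt N) :
    ta (u * a * u * b * (v * (c' * v)) * d') = ta (a * (u * b * v) * c' * (v * d' * u)) := by
  have h3 : u * a * u * b * (v * (c' * v)) * d' = u * (a * u * b * v * c' * v * d') := by
    simp only [mul_assoc]
  have h4 : a * (u * b * v) * c' * (v * d' * u) = a * u * b * v * c' * v * d' * u := by
    simp only [mul_assoc]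
  rw [h3, h4, ta_comm]

theorem pe_form (X : Mt N) (hX : Xᴴ = -X) (a b c d : Mt N) (x θ : ℝ) :
    pe (bg X θ (x / 2) * a * bg X θ (x / 2)) b (bg X θ (x / 2) * c * bg X θ (x / 2)) d =
      ta (1 : Mt N) - ta (a * bS X b (θ * (x / 2)) * cᴴ * bS (-X) dᴴ (θ * (x / 2))) := by
  have h1 := exp_star X hX (θ * (x / 2))
  rw [pe, bg, ← ta_apply, map_sub, bS, bS, neg_neg, conjTranspose_mul, conjTranspose_mul, h1,
    cyc_aux]

theorem bounds (X : Mt N) (hX : Xᴴ = -X) : ∃ C : ℝ, 0 ≤ C ∧ ∀ (a b c d : UU N) (t : ℝ),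
    |ta (G1 X a (bS X b t) (c : Mt N)ᴴ (bS (-X) (d : Mt N)ᴴ t))| ≤ C ∧
    |ta (G2 X a (bS X b t) (c : Mt N)ᴴ (bS (-X) (d : Mt N)ᴴ t))| ≤ C := by
  let f : Q4 N × ℝ → ℝ := fun _ => 1
  have hu : ∀ U : Q4 N × ℝ → Mt N, (∀ z, U z ∈ unitaryGroup (Fin N) ℂ) → Bd f 0 U := fun U hU =>
    ⟨((N : ℝ) * N) ^ (1 / 2 : ℝ), by positivity, fun z => by
      rw [pow_zero, mul_one]; exact norm_uni_le _ (hU z)⟩
  have hX' : (-X)ᴴ = -(-X) := by rw [conjTranspose_neg, hX]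
  have ha : Bd f 0 (fun z => (z.1.1 : Mt N)) := hu _ fun z => z.1.1.2
  have hb : Bd f 0 (fun z => (z.1.2.1 : Mt N)) := hu _ fun z => z.1.2.1.2
  have hc : Bd f 0 (fun z => (z.1.2.2.1 : Mt N)ᴴ) := (hu _ fun z => z.1.2.2.1.2).star
  have hd : Bd f 0 (fun z => (z.1.2.2.2 : Mt N)ᴴ) := (hu _ fun z => z.1.2.2.2.2).star
  have he1 : Bd f 0 (fun z => NormedSpace.exp (z.2 • X)) := hu _ fun z => uni_exp X hX z.2
  have he2 : Bd f 0 (fun z => NormedSpace.exp (z.2 • (-X))) := hu _ fun z => uni_exp (-X) hX' z.2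
  have hB : Bd f 0 (fun z => bS X z.1.2.1 z.2) := (he1.mul hb).mul he2
  have hD : Bd f 0 (fun z => bS (-X) (z.1.2.2.2 : Mt N)ᴴ z.2) := by
    have h1 := (he2.mul hd).mul he1
    have h2 : (fun z : Q4 N × ℝ => bS (-X) (z.1.2.2.2 : Mt N)ᴴ z.2) = fun z =>
        NormedSpace.exp (z.2 • (-X)) * (z.1.2.2.2 : Mt N)ᴴ * NormedSpace.exp (z.2 • X) := by
      funext z
      rw [bS, neg_neg]
    rw [h2]
    exact h1
  have g1 : Bd f 0 (fun z => G1 X z.1.1 (bS X z.1.2.1 z.2) (z.1.2.2.1 : Mt N)ᴴ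
      (bS (-X) (z.1.2.2.2 : Mt N)ᴴ z.2)) :=
    (((ha.mul (hB.cm X)).mul hc).mul hD).sub (((ha.mul hB).mul hc).mul (hD.cm X))
  have g0 : Bd f 0 (fun z => (z.1.1 : Mt N) * cm X (bS X z.1.2.1 z.2) * (z.1.2.2.1 : Mt N)ᴴ *
      cm X (bS (-X) (z.1.2.2.2 : Mt N)ᴴ z.2)) := ((ha.mul (hB.cm X)).mul hc).mul (hD.cm X)
  have g2 : Bd f 0 (fun z => G2 X z.1.1 (bS X z.1.2.1 z.2) (z.1.2.2.1 : Mt N)ᴴ
      (bS (-X) (z.1.2.2.2 : Mt N)ᴴ z.2)) :=
    ((((ha.mul ((hB.cm X).cm X)).mul hc).mul hD).sub (g0.add g0)).add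
      (((ha.mul hB).mul hc).mul ((hD.cm X).cm X))
  obtain ⟨C, hC, h1⟩ := g1.ta
  obtain ⟨D, hD', h2⟩ := g2.ta
  refine ⟨C + D, by positivity, fun a b c d t => ?_⟩
  have e1 := h1 ((a, b, c, d), t)
  have e2 := h2 ((a, b, c, d), t)
  simp only [pow_zero, mul_one] at e1 e2
  exact ⟨by linarith, by linarith⟩

theorem tp23 : S_P23 := by
  intro N X hX
  obtain ⟨C1, hC1, h1⟩ := L1 X hX
  obtain ⟨C2, hC2, h2⟩ := L2 X hX
  obtain ⟨C3, hC3, h3⟩ := bounds X hX
  refine ⟨C1 + C2 + C3, fun a b c d x hx => ?_⟩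
  have hg : ∀ θ : ℝ, HasDerivAt (fun θ : ℝ => θ * (x / 2)) (x / 2) θ := fun θ => by
    simpa using (hasDerivAt_id θ).mul_const (x / 2)
  have hd1 : ∀ θ : ℝ, HasDerivAt (fun θ => pe (bg X θ (x / 2) * (a : Mt N) * bg X θ (x / 2)) b
        (bg X θ (x / 2) * c * bg X θ (x / 2)) d)
      (-(ta (G1 X a (bS X b (θ * (x / 2))) (c : Mt N)ᴴ (bS (-X) (d : Mt N)ᴴ (θ * (x / 2)))) *
        (x / 2))) θ := by
    intro θ
    have e1 : (fun θ => pe (bg X θ (x / 2) * (a : Mt N) * bg X θ (x / 2)) b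
        (bg X θ (x / 2) * c * bg X θ (x / 2)) d) = fun θ => ta (1 : Mt N) -
          ta ((a : Mt N) * bS X b (θ * (x / 2)) * (c : Mt N)ᴴ * bS (-X) (d : Mt N)ᴴ (θ * (x / 2))) :=
      funext fun θ => pe_form X hX a b c d x θ
    rw [e1]
    exact ((ta_deriv (G_deriv X a b (c : Mt N)ᴴ (d : Mt N)ᴴ (θ * (x / 2)))).comp θ
      (hg θ)).const_sub _
  have hd2 : ∀ θ : ℝ, HasDerivAt (fun θ =>
      (-(ta (G1 X a (bS X b (θ * (x / 2))) (c : Mt N)ᴴ (bS (-X) (d : Mt N)ᴴ (θ * (x / 2)))) *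
        (x / 2))))
      (-(ta (G2 X a (bS X b (θ * (x / 2))) (c : Mt N)ᴴ (bS (-X) (d : Mt N)ᴴ (θ * (x / 2)))) *
        (x / 2) * (x / 2))) θ := by
    intro θ
    exact (((ta_deriv (G1_deriv X a b (c : Mt N)ᴴ (d : Mt N)ᴴ (θ * (x / 2)))).comp θ
      (hg θ)).mul_const (x / 2)).neg
  have hw0 : 0 ≤ x / 2 := by linarith
  have hw1 : x / 2 ≤ (1 + x) ^ 2 := by nlinarith
  have hw2 : x / 2 * (x / 2) ≤ (1 + x) ^ 2 := by nlinarith
  have hf0 := ff_nonneg (a, b, c, d)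
  have i1 := h1 (a, b, c, d)
  have i2 := h2 (a, b, c, d)
  rw [abs_of_nonneg hf0] at i1 i2
  have hff : ff (a, b, c, d) = ‖(a : Mt N) - 1‖ + ‖(b : Mt N) - 1‖ + ‖(c : Mt N) - 1‖ +
    ‖(d : Mt N) - 1‖ := rfl
  refine ⟨fun θ => (-(ta (G1 X a (bS X b (θ * (x / 2))) (c : Mt N)ᴴ
      (bS (-X) (d : Mt N)ᴴ (θ * (x / 2)))) * (x / 2))),
    fun θ => -(ta (G2 X a (bS X b (θ * (x / 2))) (c : Mt N)ᴴ
      (bS (-X) (d : Mt N)ᴴ (θ * (x / 2)))) * (x / 2) * (x / 2)),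
    continuous_iff_continuousAt.2 fun θ => (hd2 θ).continuousAt, ?_, fun θ => ?_, ?_, ?_⟩
  · have h4 := G2_cont X a b (c : Mt N)ᴴ (d : Mt N)ᴴ
    have h5 : Continuous fun θ : ℝ => θ * (x / 2) := by fun_prop
    exact (((h4.comp h5).mul_const (x / 2)).mul_const (x / 2)).neg
  · obtain ⟨j1, j2⟩ := h3 a b c d (θ * (x / 2))
    refine ⟨hd1 θ, hd2 θ, ?_, ?_⟩
    · rw [abs_neg, abs_mul, abs_of_nonneg hw0]
      calc _ ≤ C3 * (1 + x) ^ 2 := mul_le_mul j1 hw1 hw0 hC3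
        _ ≤ _ := mul_le_mul_of_nonneg_right (by linarith) (by positivity)
    · rw [abs_neg, mul_assoc, abs_mul, abs_of_nonneg (mul_nonneg hw0 hw0)]
      calc _ ≤ C3 * (1 + x) ^ 2 := mul_le_mul j2 hw2 (mul_nonneg hw0 hw0) hC3
        _ ≤ _ := mul_le_mul_of_nonneg_right (by linarith) (by positivity)
  · simp only [zero_mul, bS_zero]
    rw [← hff]
    have e1 : -(ta (G1 X a b (c : Mt N)ᴴ (d : Mt N)ᴴ) * (x / 2)) -
        k23 X x ((a : Mt N) - 1) ((b : Mt N) - 1) ((c : Mt N) - 1) ((d : Mt N) - 1) =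
        -((x / 2) * (ta (G1 X a b (c : Mt N)ᴴ (d : Mt N)ᴴ) -
          2 * (kp X (zq (a, b, c, d)) (zp (a, b, c, d)) - kp X (zq (a, b, c, d)) (zr (a, b, c, d)) -
            2 * kp X (zq (a, b, c, d)) (zs (a, b, c, d)) +
            kp X (zs (a, b, c, d)) (zp (a, b, c, d)) -
            kp X (zs (a, b, c, d)) (zr (a, b, c, d))))) := by
      simp only [k23, zp, zq, zr, zs]
      ring
    rw [e1, abs_neg, abs_mul, abs_of_nonneg hw0]
    calc _ ≤ (1 + x) ^ 2 * (C1 * ff (a, b, c, d) ^ 3) :=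
          mul_le_mul hw1 i1 (abs_nonneg _) (by positivity)
      _ = C1 * ((1 + x) ^ 2 * ff (a, b, c, d) ^ 3) := by ring
      _ ≤ (C1 + C2 + C3) * ((1 + x) ^ 2 * ff (a, b, c, d) ^ 3) :=
          mul_le_mul_of_nonneg_right (by linarith) (by positivity)
      _ = _ := by ring
  · simp only [zero_mul, bS_zero]
    rw [← hff]
    have e1 : -(ta (G2 X a b (c : Mt N)ᴴ (d : Mt N)ᴴ) * (x / 2) * (x / 2)) -
        g23 X x ((a : Mt N) - 1) ((b : Mt N) - 1) ((c : Mt N) - 1) ((d : Mt N) - 1) =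
        -((x / 2 * (x / 2)) * (ta (G2 X a b (c : Mt N)ᴴ (d : Mt N)ᴴ) +
          (gp X (zq (a, b, c, d) + zs (a, b, c, d)) (zq (a, b, c, d) + zs (a, b, c, d)) -
            gp X (zq (a, b, c, d) - zs (a, b, c, d)) (zp (a, b, c, d) - zr (a, b, c, d) +
              (zq (a, b, c, d) - zs (a, b, c, d)))))) := by
      simp only [g23, zp, zq, zr, zs]
      ring
    rw [e1, abs_neg, abs_mul, abs_of_nonneg (mul_nonneg hw0 hw0)]
    calc _ ≤ (1 + x) ^ 2 * (C2 * ff (a, b, c, d) ^ 3) :=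
          mul_le_mul hw2 i2 (abs_nonneg _) (by positivity)
      _ = C2 * ((1 + x) ^ 2 * ff (a, b, c, d) ^ 3) := by ring
      _ ≤ (C1 + C2 + C3) * ((1 + x) ^ 2 * ff (a, b, c, d) ^ 3) :=
          mul_le_mul_of_nonneg_right (by linarith) (by positivity)
      _ = _ := by ring

end

end Pool.Agent.H987.AG
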